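import Mathlib
import Pool.Agent.X139.KT.Stm

/-! Kikuchi matrix, r = 2: the quadratic variation. -/

set_option autoImplicit false

namespace Pool.Agent.X200.KT

open Finset
open Pool.Agent.X139.KT (V co S_PAIR S_QV)

theorem pair_aux {n : ℕ} (f : Fin n → ℝ) (s : Finset (Fin n)) :
    (∑ i ∈ s, f i) ^ 2 = (∑ i ∈ s, f i ^ 2) + 2 * ∑ S ∈ s.powersetCard 2, ∏ i ∈ S, f i := by
  classical
  induction s using Finset.induction_on with
  | empty =>
    have h : (∅ : Finset (Fin n)).powersetCard 2 = ∅ := powersetCard_eq_empty.2 (by simp)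
    rw [h]
    simp
  | insert a s ha ih =>
    rw [sum_insert ha, sum_insert ha, powersetCard_succ_insert ha, sum_union, sum_image]
    · have h1 : ∑ S ∈ s.powersetCard 1, ∏ i ∈ insert a S, f i = f a * ∑ i ∈ s, f i := by
        rw [powersetCard_one, sum_map, mul_sum]
        refine sum_congr rfl fun i hi => ?_
        have hai : a ∉ ({i} : Finset (Fin n)) := by
          rw [mem_singleton]
          rintro rfl
          exact ha hi
        show ∏ j ∈ insert a {i}, f j = _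
        rw [prod_insert hai, prod_singleton]
      rw [h1]
      linear_combination ih
    · intro S hS S' hS' h
      have h2 : a ∉ S := fun h => ha ((mem_powersetCard.1 hS).1 h)
      have h3 : a ∉ S' := fun h => ha ((mem_powersetCard.1 hS').1 h)
      have h' : insert a S = insert a S' := h
      rw [← erase_insert h2, ← erase_insert h3, h']
    · rw [disjoint_left]
      intro S hS hS'
      rw [mem_image] at hS'
      obtain ⟨S', -, rfl⟩ := hS'
      exact ha ((mem_powersetCard.1 hS).1 (mem_insert_self _ _))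

theorem t_PAIR : S_PAIR := by
  intro n f
  have h := pair_aux f univ
  rw [h]
  congr 3
  ext S
  simp [mem_powersetCard]

variable {n l : ℕ}

/-- the weight of a point -/
noncomputable def W (v : V n l → ℝ) (i : Fin n) : ℝ := ∑ I : V n l, if i ∈ I.1 then v I ^ 2 else 0

theorem W_nonneg (v : V n l → ℝ) (i : Fin n) : 0 ≤ W v i :=
  sum_nonneg fun I _ => by split_ifs <;> positivity

theorem sum_W (v : V n l → ℝ) (hv : ∑ I, v I ^ 2 = 1) : ∑ i, W v i = l := by
  unfold W
  rw [sum_comm]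
  have h : ∀ I : V n l, (∑ i, if i ∈ I.1 then v I ^ 2 else 0) = l * v I ^ 2 := by
    intro I
    rw [← sum_filter, sum_const, nsmul_eq_mul]
    have e : (univ.filter fun i : Fin n => i ∈ I.1) = I.1 := by
      ext i
      simp
    rw [e, I.2]
  rw [sum_congr rfl fun I _ => h I, ← mul_sum, hv, mul_one]

/-- the pairs with symmetric difference `S` -/
def Pr (n l : ℕ) (S : Finset (Fin n)) : Finset (V n l × V n l) :=
  univ.filter fun p => symmDiff p.1.1 p.2.1 = S

theorem co_eq (v : V n l → ℝ) (S : Finset (Fin n)) (hS : S.card = 2) :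
    co v S = ∑ p ∈ Pr n l S, v p.1 * v p.2 := by
  unfold co Pr
  rw [sum_filter, ← univ_product_univ, sum_product]
  refine sum_congr rfl fun I _ => sum_congr rfl fun J _ => ?_
  by_cases h : symmDiff I.1 J.1 = S
  · rw [if_pos ⟨by rw [h, hS], h⟩, if_pos h]
  · rw [if_neg (fun h' => h h'.2), if_neg h]

theorem co_zero (v : V n l → ℝ) (S : Finset (Fin n)) (hS : S.card ≠ 2) : co v S = 0 := by
  unfold co
  refine sum_eq_zero fun I _ => sum_eq_zero fun J _ => ?_
  rw [if_neg]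
  rintro ⟨h1, h2⟩
  rw [h2] at h1
  exact hS h1

theorem struct (i j : Fin n) (hij : i ≠ j) (p : V n l × V n l) (hp : p ∈ Pr n l {i, j}) :
    (i ∈ p.1.1 ∧ j ∈ p.2.1) ∨ (j ∈ p.1.1 ∧ i ∈ p.2.1) := by
  classical
  obtain ⟨⟨I, hI⟩, ⟨J, hJ⟩⟩ := p
  have hp' : symmDiff I J = {i, j} := by
    have := (mem_filter.1 hp).2
    exact this
  show (i ∈ I ∧ j ∈ J) ∨ (j ∈ I ∧ i ∈ J)
  have hi : i ∈ symmDiff I J := by rw [hp']; simp
  have hj : j ∈ symmDiff I J := by rw [hp']; simp
  rw [mem_symmDiff] at hi hj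
  have hc1 : (I \ J).card = (J \ I).card := by
    have e1 := card_sdiff_add_card_inter I J
    have e2 := card_sdiff_add_card_inter J I
    rw [inter_comm] at e2
    omega
  have hc2 : (I \ J).card + (J \ I).card = 2 := by
    have e1 : symmDiff I J = (I \ J) ∪ (J \ I) := rfl
    have e2 : Disjoint (I \ J) (J \ I) := disjoint_sdiff_sdiff
    rw [← card_union_of_disjoint e2, ← e1, hp', card_pair hij]
  rcases hi with ⟨h1, h2⟩ | ⟨h1, h2⟩ <;> rcases hj with ⟨h3, h4⟩ | ⟨h3, h4⟩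
  · exfalso
    have h5 : ({i, j} : Finset (Fin n)) ⊆ I \ J := by
      intro a ha
      rw [mem_insert, mem_singleton] at ha
      rcases ha with rfl | rfl
      · exact mem_sdiff.2 ⟨h1, h2⟩
      · exact mem_sdiff.2 ⟨h3, h4⟩
    have h6 := card_le_card h5
    rw [card_pair hij] at h6
    omega
  · exact Or.inl ⟨h1, h3⟩
  · exact Or.inr ⟨h3, h1⟩
  · exfalso
    have h5 : ({i, j} : Finset (Fin n)) ⊆ J \ I := by
      intro a ha
      rw [mem_insert, mem_singleton] at ha
      rcases ha with rfl | rfl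
      · exact mem_sdiff.2 ⟨h1, h2⟩
      · exact mem_sdiff.2 ⟨h3, h4⟩
    have h6 := card_le_card h5
    rw [card_pair hij] at h6
    omega

theorem inj1 (S : Finset (Fin n)) (A : Finset (V n l × V n l)) (hA : A ⊆ Pr n l S) :
    Set.InjOn Prod.fst (A : Set (V n l × V n l)) := by
  intro p hp q hq h
  have h1 : symmDiff p.1.1 p.2.1 = S := (mem_filter.1 (hA hp)).2
  have h2 : symmDiff q.1.1 q.2.1 = S := (mem_filter.1 (hA hq)).2
  refine Prod.ext h (Subtype.ext ?_)
  rw [← h2, ← h] at h1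
  exact symmDiff_right_injective _ h1

theorem inj2 (S : Finset (Fin n)) (A : Finset (V n l × V n l)) (hA : A ⊆ Pr n l S) :
    Set.InjOn Prod.snd (A : Set (V n l × V n l)) := by
  intro p hp q hq h
  have h1 : symmDiff p.1.1 p.2.1 = S := (mem_filter.1 (hA hp)).2
  have h2 : symmDiff q.1.1 q.2.1 = S := (mem_filter.1 (hA hq)).2
  refine Prod.ext (Subtype.ext ?_) h
  rw [← h2, ← h] at h1
  exact symmDiff_left_injective _ h1

theorem half (v : V n l → ℝ) (i j : Fin n) (S : Finset (Fin n)) (A : Finset (V n l × V n l))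
    (hA : A ⊆ Pr n l S) (h : ∀ p ∈ A, i ∈ p.1.1 ∧ j ∈ p.2.1) :
    (∑ p ∈ A, v p.1 * v p.2) ^ 2 ≤ W v i * W v j := by
  have h1 : ∑ p ∈ A, v p.1 ^ 2 ≤ W v i := by
    have e : ∑ p ∈ A, v p.1 ^ 2 = ∑ I ∈ A.image Prod.fst, v I ^ 2 :=
      (sum_image (f := fun I : V n l => v I ^ 2) (inj1 S A hA)).symm
    rw [e]
    unfold W
    rw [← sum_filter]
    refine sum_le_sum_of_subset_of_nonneg ?_ fun I _ _ => sq_nonneg _
    intro I hI
    obtain ⟨p, hp, rfl⟩ := mem_image.1 hI
    exact mem_filter.2 ⟨mem_univ _, (h p hp).1⟩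
  have h2 : ∑ p ∈ A, v p.2 ^ 2 ≤ W v j := by
    have e : ∑ p ∈ A, v p.2 ^ 2 = ∑ I ∈ A.image Prod.snd, v I ^ 2 :=
      (sum_image (f := fun I : V n l => v I ^ 2) (inj2 S A hA)).symm
    rw [e]
    unfold W
    rw [← sum_filter]
    refine sum_le_sum_of_subset_of_nonneg ?_ fun I _ _ => sq_nonneg _
    intro I hI
    obtain ⟨p, hp, rfl⟩ := mem_image.1 hI
    exact mem_filter.2 ⟨mem_univ _, (h p hp).2⟩
  exact (sum_mul_sq_le_sq_mul_sq A _ _).trans
    (mul_le_mul h1 h2 (sum_nonneg fun _ _ => sq_nonneg _) (W_nonneg v i))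

theorem co_sq (v : V n l → ℝ) (S : Finset (Fin n)) (hS : S.card = 2) :
    co v S ^ 2 ≤ 4 * ∏ i ∈ S, W v i := by
  classical
  obtain ⟨i, j, hij, rfl⟩ := card_eq_two.1 hS
  rw [co_eq v _ hS, prod_pair hij,
    ← sum_filter_add_sum_filter_not (Pr n l {i, j}) (fun p => i ∈ p.1.1 ∧ j ∈ p.2.1)]
  have h1 := half v i j {i, j} ((Pr n l {i, j}).filter fun p => i ∈ p.1.1 ∧ j ∈ p.2.1)
    (filter_subset _ _) (fun p hp => (mem_filter.1 hp).2)
  have h2 := half v j i {i, j} ((Pr n l {i, j}).filter fun p => ¬ (i ∈ p.1.1 ∧ j ∈ p.2.1))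
    (filter_subset _ _) (fun p hp => (struct i j hij p (mem_filter.1 hp).1).resolve_left
      (mem_filter.1 hp).2)
  nlinarith [sq_nonneg ((∑ p ∈ (Pr n l {i, j}).filter fun p => i ∈ p.1.1 ∧ j ∈ p.2.1, v p.1 * v p.2) -
    ∑ p ∈ (Pr n l {i, j}).filter fun p => ¬ (i ∈ p.1.1 ∧ j ∈ p.2.1), v p.1 * v p.2)]

theorem t_QV : S_QV := by
  classical
  intro n l v hv
  have h1 : ∑ S, co v S ^ 2 = ∑ S ∈ (univ : Finset (Finset (Fin n))).filter (fun S => S.card = 2),
      co v S ^ 2 := by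
    rw [sum_filter]
    refine sum_congr rfl fun S _ => ?_
    split_ifs with h
    · rfl
    · rw [co_zero v S h]; norm_num
  have h2 := t_PAIR n (W v)
  rw [sum_W v hv] at h2
  have h3 : 0 ≤ ∑ i, W v i ^ 2 := sum_nonneg fun _ _ => sq_nonneg _
  have h4 : ∑ S ∈ (univ : Finset (Finset (Fin n))).filter (fun S => S.card = 2), co v S ^ 2 ≤
      4 * ∑ S ∈ (univ : Finset (Finset (Fin n))).filter (fun S => S.card = 2), ∏ i ∈ S, W v i := by
    rw [mul_sum]
    exact sum_le_sum fun S hS => co_sq v S (mem_filter.1 hS).2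
  rw [h1]
  nlinarith [sq_nonneg (l : ℝ)]

end Pool.Agent.X200.KT
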